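import Pool.Agent.TH967.MC.Final

/-!
In high dimension the conditioned infinite percolation clusters at two parameters in
`(p_c, 1/d]` admit no monotone coupling.
-/

namespace Pool.Agent.Results.MP_7898df_pr.NoMonotoneCoupling

open MeasureTheory

/-- The edges of the lattice `ℤ^d`: the pair `(v, i)` stands for the edge between `v` and
`v + e_i`. -/
abbrev Edge (d : ℕ) := (Fin d → ℤ) × Fin d

/-- Bernoulli bond percolation on `ℤ^d`: every edge is open (`true`) with probability `p`,
independently of the other edges. -/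
noncomputable def perc (d : ℕ) (p : unitInterval) : Measure (Edge d → Bool) :=
  Measure.infinitePi (fun _ => ProbabilityTheory.bernoulliMeasure true false p)

/-- `u` and `v` are the two ends of an open edge. -/
def Adj {d : ℕ} (ω : Edge d → Bool) (u v : Fin d → ℤ) : Prop :=
  ∃ i, (ω (u, i) = true ∧ v = u + Pi.single i 1) ∨ (ω (v, i) = true ∧ u = v + Pi.single i 1)

/-- A subgraph of `ℤ^d`, given by its vertex set and its edge set. -/
abbrev Sub (d : ℕ) := Set (Fin d → ℤ) × Set (Edge d)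

/-- The open cluster of the origin: all vertices joined to the origin by open paths, and the open
edges between them. -/
def cluster {d : ℕ} (ω : Edge d → Bool) : Sub d :=
  ({v | Relation.ReflTransGen (Adj ω) 0 v},
    {e | ω e = true ∧ Relation.ReflTransGen (Adj ω) 0 e.1})

/-- The event that the open cluster of the origin is infinite. -/
def infiniteCluster (d : ℕ) : Set (Edge d → Bool) := {ω | (cluster ω).1.Infinite}

/-- The critical probability. -/
noncomputable def pc (d : ℕ) : ℝ :=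
  sSup {p : ℝ | ∃ h : p ∈ Set.Icc (0 : ℝ) 1, perc d ⟨p, h⟩ (infiniteCluster d) = 0}

/-- The law of the open cluster of the origin conditioned to be infinite. -/
noncomputable def law (d : ℕ) (p : unitInterval) : Measure (Sub d) :=
  (ProbabilityTheory.cond (perc d p) (infiniteCluster d)).map cluster

/-- Containment of subgraphs. -/
def Contained {d : ℕ} (G H : Sub d) : Prop := G.1 ⊆ H.1 ∧ G.2 ⊆ H.2

theorem result (d : ℕ) (hd : 10 ^ 6 ≤ d) :
    pc d ≤ 49 / (50 * d) ∧
    ∀ p₁ p₂ : unitInterval, pc d < p₁ → (p₁ : ℝ) < p₂ → 49 / (50 * d) ≤ (p₂ : ℝ) →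
      (p₂ : ℝ) ≤ 1 / d →
      ∀ {Ω : Type*} [MeasurableSpace Ω] (P : Measure Ω) [IsProbabilityMeasure P]
        (C₁ C₂ : Ω → Sub d), Measurable C₁ → Measurable C₂ →
        P.map C₁ = law d p₁ → P.map C₂ = law d p₂ →
        P {x | Contained (C₁ x) (C₂ x)} < 1 := by
  have hd0 : (0 : ℝ) < d := by
    have : 0 < d := by omega
    exact_mod_cast this
  refine ⟨?_, ?_⟩
  · apply Real.sSup_le _ (by positivity)
    rintro p ⟨h, h0⟩
    by_contra hlt
    push Not at hlt
    have h1 := TH967.MC.theta_ge hd ⟨p, h⟩ hlt.le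
    have h2 : (perc d ⟨p, h⟩).real (infiniteCluster d) = 0 := by
      rw [measureReal_def, h0]; rfl
    have h3 : 1 / 2000 ≤ (perc d ⟨p, h⟩).real (infiniteCluster d) := h1
    rw [h2] at h3
    norm_num at h3
  · intro p₁ p₂ hp1 hlt hp2 hle Ω _ P _ C₁ C₂ hC1 hC2 hL1 hL2
    by_contra hge
    push Not at hge
    -- the infinite cluster has positive probability at `p₁`
    have hbdd : BddAbove {p : ℝ | ∃ h : p ∈ Set.Icc (0 : ℝ) 1, perc d ⟨p, h⟩ (infiniteCluster d) = 0} :=
      ⟨1, fun p hp => hp.1.2⟩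
    have hpc0 : 0 ≤ pc d := Real.sSup_nonneg fun p hp => hp.1.1
    have hp10 : (0 : ℝ) < p₁ := lt_of_le_of_lt hpc0 hp1
    have inst : ∀ p : unitInterval, IsProbabilityMeasure (perc d p) := fun p => by
      unfold perc; infer_instance
    have hθ1 : perc d p₁ (infiniteCluster d) ≠ 0 := by
      intro h
      have h1 : (p₁ : ℝ) ≤ pc d := le_csSup hbdd ⟨p₁.2, h⟩
      linarith
    set θ := (perc d p₁).real (infiniteCluster d) with hθ
    have hθ0 : 0 < θ := by
      rw [hθ, measureReal_def]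
      exact ENNReal.toReal_pos hθ1 (measure_ne_top _ _)
    -- choose a box
    obtain ⟨s, hs1, hs⟩ := TH967.MC.growth (D := d) (K := 2000 / θ) (by omega) hp10 hlt hle
      (by positivity)
    obtain ⟨T, Z, w, h1, h2, h3, h4, h5, h6, h7⟩ := TH967.MC.box_event' d s (by omega) hs1
    have key := hs T.card Z.card h2 h3
    have hup : (perc d p₁).real (infiniteCluster d ∩ {ω | ∀ e ∈ Z, e ∉ (cluster ω).2}) ≤
        (p₁ : ℝ) ^ T.card * (1 - (p₁ : ℝ)) ^ Z.card := TH967.MC.DD_upper p₁ T Z h1 h6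
    have hlo : (p₂ : ℝ) ^ T.card * (1 - (p₂ : ℝ)) ^ Z.card / 2000 ≤
        (perc d p₂).real (infiniteCluster d ∩ {ω | ∀ e ∈ Z, e ∉ (cluster ω).2}) :=
      TH967.MC.DD_lower hd p₂ hp2 T Z w h1 (by omega) s h4 h5 h7
    -- the decreasing event
    set S : Set (Sub d) := {G | ∀ e ∈ Z, e ∉ G.2} with hS
    have mS : MeasurableSet S := by
      have e1 : S = ⋂ e ∈ Z, {G : Sub d | e ∈ G.2}ᶜ := by
        ext G
        simp [hS]
      rw [e1]
      refine Finset.measurableSet_biInter _ fun e _ => MeasurableSet.compl ?_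
      exact measurableSet_setOfPred.mpr ((measurable_set_mem e).comp measurable_snd)
    have mI : MeasurableSet (infiniteCluster d) := TH967.MC.meas_inf
    have mC : Measurable (cluster (d := d)) := TH967.MC.meas_cluster
    have hlaw : ∀ p : unitInterval, law d p S = (perc d p (infiniteCluster d))⁻¹ *
        perc d p (infiniteCluster d ∩ {ω | ∀ e ∈ Z, e ∉ (cluster ω).2}) := by
      intro p
      unfold law
      rw [Measure.map_apply mC mS, ProbabilityTheory.cond_apply mI]
      rfl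
    have hcomp : law d p₂ S ≤ law d p₁ S := by
      rw [← hL1, ← hL2, Measure.map_apply hC1 mS, Measure.map_apply hC2 mS]
      have m1 : MeasurableSet (C₁ ⁻¹' S) := hC1 mS
      have m2 : MeasurableSet (C₂ ⁻¹' S) := hC2 mS
      have h8 : P (C₂ ⁻¹' S \ C₁ ⁻¹' S) = 0 := by
        have h9 : {x | Contained (C₁ x) (C₂ x)} ⊆ (C₂ ⁻¹' S \ C₁ ⁻¹' S)ᶜ := by
          intro x hx hx2
          exact hx2.2 fun e he he1 => hx2.1 e he (hx.2 he1)
        have h10 := measure_mono (μ := P) h9
        have h11 : P (C₂ ⁻¹' S \ C₁ ⁻¹' S)ᶜ = 1 := le_antisymm prob_le_one (hge.trans h10)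
        rwa [prob_compl_eq_one_iff (m2.diff m1)] at h11
      calc P (C₂ ⁻¹' S) ≤ P (C₁ ⁻¹' S ∪ (C₂ ⁻¹' S \ C₁ ⁻¹' S)) := by
            apply measure_mono
            intro x hx
            by_cases hx1 : x ∈ C₁ ⁻¹' S
            · exact Or.inl hx1
            · exact Or.inr ⟨hx, hx1⟩
        _ ≤ P (C₁ ⁻¹' S) + P (C₂ ⁻¹' S \ C₁ ⁻¹' S) := measure_union_le _ _
        _ = P (C₁ ⁻¹' S) := by rw [h8, add_zero]
    rw [hlaw, hlaw] at hcomp
    have h12 : perc d p₂ (infiniteCluster d ∩ {ω | ∀ e ∈ Z, e ∉ (cluster ω).2}) ≤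
        (perc d p₁ (infiniteCluster d))⁻¹ *
        perc d p₁ (infiniteCluster d ∩ {ω | ∀ e ∈ Z, e ∉ (cluster ω).2}) := by
      refine le_trans ?_ hcomp
      have h13 : (1 : ENNReal) ≤ (perc d p₂ (infiniteCluster d))⁻¹ :=
        ENNReal.one_le_inv.mpr prob_le_one
      exact le_mul_of_one_le_left (by positivity) h13
    have h14 : (perc d p₂).real (infiniteCluster d ∩ {ω | ∀ e ∈ Z, e ∉ (cluster ω).2}) ≤
        θ⁻¹ * (perc d p₁).real (infiniteCluster d ∩ {ω | ∀ e ∈ Z, e ∉ (cluster ω).2}) := by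
      have h15 := ENNReal.toReal_mono (ENNReal.mul_ne_top (ENNReal.inv_ne_top.mpr hθ1)
        (measure_ne_top _ _)) h12
      rw [ENNReal.toReal_mul, ENNReal.toReal_inv] at h15
      exact h15
    have h16 : (p₂ : ℝ) ^ T.card * (1 - (p₂ : ℝ)) ^ Z.card ≤
        2000 / θ * ((p₁ : ℝ) ^ T.card * (1 - (p₁ : ℝ)) ^ Z.card) := by
      have h17 : θ⁻¹ * (perc d p₁).real (infiniteCluster d ∩ {ω | ∀ e ∈ Z, e ∉ (cluster ω).2}) ≤
          θ⁻¹ * ((p₁ : ℝ) ^ T.card * (1 - (p₁ : ℝ)) ^ Z.card) :=
        mul_le_mul_of_nonneg_left hup (by positivity)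
      have h18 := (hlo.trans h14).trans h17
      rw [div_le_iff₀ (by norm_num)] at h18
      refine h18.trans (le_of_eq ?_)
      field_simp
    linarith

end Pool.Agent.Results.MP_7898df_pr.NoMonotoneCoupling
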